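import Pool.Agent.H482R3.EA.Stm

set_option autoImplicit false

/-! Project EA, task DIC: dictionary between words and the system. -/

namespace Pool.Agent.H213R2.EA

open Pool.Agent.H482R3.EA

section

variable {V Wt : Type}

theorem dic_triv (hS : S_EV) (c : V ⊕ Wt → V ⊕ Wt → ℕ) (g' g : W Wt) :
    Triv (cW c) (inv g' ++ g) ↔ gEl c g' = gEl c g := by
  have h := hS Wt (EA (cW c)) inferInstance (gen (cW c))
  unfold Triv gEl
  rw [h.1, h.2.1, inv_mul_eq_one]

theorem dic_expo_rep [DecidableEq Wt] (w : Wt) (n : ℕ) :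
    expo w (List.replicate n (w, true)) = n ∧ expo w (List.replicate n (w, false)) = -n := by
  constructor
  · unfold expo
    rw [List.count_replicate_self, List.count_replicate]
    simp
  · unfold expo
    rw [List.count_replicate_self, List.count_replicate]
    simp

theorem dic_inz [DecidableEq Wt] (hE : S_EX) (hS : S_EV) (c : V ⊕ Wt → V ⊕ Wt → ℕ)
    (w : Wt) (u : W Wt) :
    inz c w u ↔ ev (gen (cW c)) u ∈ Subgroup.zpowers (gen (cW c) w) := by
  have h := hS Wt (EA (cW c)) inferInstance (gen (cW c))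
  obtain ⟨e1, e2, -, -, -⟩ := hE Wt inferInstance (cW c) w
  unfold inz Triv
  rw [h.1, h.2.1, mul_inv_eq_one, e2]
  constructor
  · intro h1
    rw [h1]
    exact ⟨expo w u, rfl⟩
  · rintro ⟨n, hn⟩
    simp only at hn
    have hw : ∃ u' : W Wt, ev (gen (cW c)) u' = gen (cW c) w ^ n ∧ expo w u' = n := by
      obtain ⟨k, rfl | rfl⟩ := n.eq_nat_or_neg
      · exact ⟨List.replicate k (w, true), by rw [(h.2.2 w k).1, zpow_natCast],
          (dic_expo_rep w k).1⟩
      · exact ⟨List.replicate k (w, false), by rw [(h.2.2 w k).2, zpow_neg, zpow_natCast, inv_pow],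
          (dic_expo_rep w k).2⟩
    obtain ⟨u', h1, h2⟩ := hw
    have h3 := e1 u u' (by rw [h1, hn])
    rw [h3, h2, hn]

theorem dic_inz' [DecidableEq Wt] (hE : S_EX) (hS : S_EV) (c : V ⊕ Wt → V ⊕ Wt → ℕ)
    (w : Wt) (g' g : W Wt) :
    inz c w (inv g' ++ g) ↔
      (QuotientGroup.mk (gEl c g') : EA (cW c) ⧸ Subgroup.zpowers (gen (cW c) w)) =
        QuotientGroup.mk (gEl c g) := by
  have h := hS Wt (EA (cW c)) inferInstance (gen (cW c))
  rw [dic_inz hE hS, h.1, h.2.1, QuotientGroup.eq]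
  rfl

end

theorem t_DIC (hE : S_EX) (hS : S_EV) : S_DIC := by
  intro V Wt _ _ c h s g v hok
  rcases s with _ | ⟨g', v', b, n⟩ | ⟨g', y⟩ | ⟨g', v', w', y⟩
  · exact ⟨Iff.rfl, Iff.rfl, fun _ _ => Iff.rfl⟩
  · refine ⟨?_, ?_, ?_⟩
    · show (Triv (cW c) (inv g' ++ g) ∨
        (v = v' ∧ ∃ w, c (.inl v) (.inr w) ≠ 0 ∧ inz c w (inv g' ++ g))) ↔
        ∃ m : LnEA c, IEA c (gEl c g', v') m ∧ IEA c (gEl c g, v) m
      rw [dic_triv hS]
      constructor
      · rintro (h1 | ⟨rfl, w, hc, h1⟩)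
        · exact ⟨Sum.inl (gEl c g), h1, rfl⟩
        · rw [dic_inz' hE hS] at h1
          exact ⟨Sum.inr ⟨⟨(v, w), hc⟩, QuotientGroup.mk (gEl c g)⟩, ⟨rfl, h1⟩, ⟨rfl, rfl⟩⟩
      · rintro ⟨m | ⟨⟨⟨v1, w1⟩, hc⟩, x⟩, h1, h2⟩
        · left
          exact (show gEl c g' = m from h1).trans (show gEl c g = m from h2).symm
        · right
          obtain ⟨h1a, h1b⟩ := h1
          obtain ⟨h2a, h2b⟩ := h2
          have e1 : v' = v1 := h1a
          have e2 : v = v1 := h2a
          subst e1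
          subst e2
          refine ⟨rfl, w1, hc, ?_⟩
          rw [dic_inz' hE hS]
          exact h1b.trans h2b.symm
    · show Triv (cW c) (inv g' ++ g) ↔ gEl c g' = gEl c g
      exact dic_triv hS c g' g
    · intro w hc
      show (v = v' ∧ inz c w (inv g' ++ g)) ↔ (v' = v ∧
        (QuotientGroup.mk (gEl c g') : EA (cW c) ⧸ Subgroup.zpowers (gen (cW c) w)) =
          QuotientGroup.mk (gEl c g))
      rw [dic_inz' hE hS]
      constructor
      · rintro ⟨h1, h2⟩; exact ⟨h1.symm, h2⟩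
      · rintro ⟨h1, h2⟩; exact ⟨h1.symm, h2⟩
  · refine ⟨?_, ?_, ?_⟩
    · show Triv (cW c) (inv g' ++ g) ↔ gEl c g = gEl c g'
      rw [dic_triv hS]
      exact eq_comm
    · show Triv (cW c) (inv g' ++ g) ↔ (Sum.inl (gEl c g) : LnEA c) = Sum.inl (gEl c g')
      rw [dic_triv hS]
      constructor
      · intro h1; rw [h1]
      · intro h1; exact (Sum.inl_injective h1).symm
    · intro w hc
      show False ↔ (Sum.inr ⟨(⟨(v, w), hc⟩ : LIdx c), QuotientGroup.mk (gEl c g)⟩ : LnEA c) =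
        Sum.inl (gEl c g')
      constructor
      · exact False.elim
      · intro h1; cases h1
  · have hc' : c (.inl v') (.inr w') ≠ 0 := hok
    have hst : stO c h (some (.inr (.inr (g', v', w', y)))) =
        .ln (Sum.inr ⟨(⟨(v', w'), hc'⟩ : LIdx c), QuotientGroup.mk (gEl c g')⟩ : LnEA c) := by
      show (if hc : c (.inl v') (.inr w') ≠ 0 then _ else _) = _
      rw [dif_pos hc']
    rw [hst]
    refine ⟨?_, ?_, ?_⟩
    · show (v = v' ∧ inz c w' (inv g' ++ g)) ↔ (v = v' ∧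
        (QuotientGroup.mk (gEl c g) : EA (cW c) ⧸ Subgroup.zpowers (gen (cW c) w')) =
          QuotientGroup.mk (gEl c g'))
      rw [dic_inz' hE hS]
      constructor
      · rintro ⟨h1, h2⟩; exact ⟨h1, h2.symm⟩
      · rintro ⟨h1, h2⟩; exact ⟨h1, h2.symm⟩
    · show False ↔ (Sum.inl (gEl c g) : LnEA c) =
        Sum.inr ⟨(⟨(v', w'), hc'⟩ : LIdx c), QuotientGroup.mk (gEl c g')⟩
      constructor
      · exact False.elim
      · intro h1; cases h1
    · intro w hc
      show (v = v' ∧ w = w' ∧ inz c w (inv g' ++ g)) ↔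
        (Sum.inr ⟨(⟨(v, w), hc⟩ : LIdx c), QuotientGroup.mk (gEl c g)⟩ : LnEA c) =
        Sum.inr ⟨(⟨(v', w'), hc'⟩ : LIdx c), QuotientGroup.mk (gEl c g')⟩
      rw [dic_inz' hE hS]
      constructor
      · rintro ⟨rfl, rfl, h2⟩
        rw [h2]
      · intro h1
        have h2 := Sum.inr_injective h1
        obtain ⟨h3, h4⟩ := Sigma.mk.inj h2
        have h5 := congrArg Subtype.val h3
        have h6 : v = v' := congrArg Prod.fst h5
        have h7 : w = w' := congrArg Prod.snd h5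
        subst h6
        subst h7
        exact ⟨rfl, rfl, (eq_of_heq h4).symm⟩

end Pool.Agent.H213R2.EA
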